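import Pool.Agent.Helper62.NT.Defs

/-!
PROJECT NT (MP_8ff381_an), goals with proofs in words (helper62). FINAL THEOREM: there are a separable reflexive `Z`
and a separable non-reflexive `X` (James' space) such that every family of tree-like metric spaces (four point
condition, arbitrary subsets of real trees) which embeds uniformly in `X` embeds uniformly in `Z`. So no family of
tree-like spaces is a family of test spaces for reflexivity.

File of a goal: `Pool/Agent/<You>/NT/<NAME>.lean`, `theorem t (hyp : S_A) ... : S_NAME`, standard axioms.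
-/

set_option autoImplicit false

noncomputable section

namespace Pool.Agent.Helper62.NT

open Filter Topology

/-! ### Part A: countably branching trees do not embed uniformly in James' space -/

/-- VBAS (0.7 h). Basic facts on the quadratic variation. PROOF. `√(qs a n p)` is the `ℓ_2^n` norm of the increments
(triangle inequality: `EuclideanSpace`, or `Real.Lp_add_le`); suprema. (vi) if `a` were not Cauchy, infinitely many
increments `≥ ε` along a monotone `p` contradict the bound (`cauchySeq`). (viii): along constant-after sequences. -/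
def S_VBAS : Prop :=
  (∀ a : ℕ → ℝ, 0 ≤ V a) ∧
  (∀ a : ℕ → ℝ, BV a → ∀ (n : ℕ) (p : ℕ → ℕ), Monotone p → qs a n p ≤ V a ^ 2) ∧
  (∀ (a : ℕ → ℝ) (C : ℝ), 0 ≤ C → VB a (C ^ 2) → V a ≤ C) ∧
  (∀ a b : ℕ → ℝ, BV a → BV b → BV (fun t => a t + b t) ∧ V (fun t => a t + b t) ≤ V a + V b) ∧
  (∀ a b : ℕ → ℝ, BV a → BV b → BV (fun t => a t - b t) ∧ V (fun t => a t - b t) ≤ V a + V b) ∧
  (∀ a : ℕ → ℝ, BV a → ∃ l, Tendsto a atTop (𝓝 l)) ∧
  (∀ a : ℕ → ℝ, BV a → ∀ s t, |a s - a t| ≤ V a) ∧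
  (∀ (a : ℕ → ℝ) (l : ℝ), BV a → Tendsto a atTop (𝓝 l) → ∀ (n : ℕ) (p : ℕ → ℕ), Monotone p →
    qs a n p + (a (p n) - l) ^ 2 ≤ V a ^ 2) ∧
  (∀ (c : ℝ) (a : ℕ → ℝ), BV a → V (fun t => c * a t) = |c| * V a) ∧
  (∀ (a : ℕ → ℝ) (K : ℕ), (∀ t, K ≤ t → a t = 0) → BV a)

/-- QVBAS (0.5 h). The same for the seminorm with a point at infinity (`Qv a l`; `l` is arbitrary here, the pair
`(a, l)` is a sequence with one more value). `BV a` makes the suprema bounded. -/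
def S_QVBAS : Prop :=
  (∀ (a : ℕ → ℝ) (l : ℝ), 0 ≤ Qv a l) ∧
  (∀ (a : ℕ → ℝ) (l : ℝ), BV a → ∀ (n : ℕ) (p : ℕ → ℕ), Monotone p →
    qs a n p + 2 * (a (p n) - l) ^ 2 ≤ Qv a l ^ 2) ∧
  (∀ (a : ℕ → ℝ) (l C : ℝ), 0 ≤ C → (∀ (n : ℕ) (p : ℕ → ℕ), Monotone p →
    qs a n p + 2 * (a (p n) - l) ^ 2 ≤ C ^ 2) → Qv a l ≤ C) ∧
  (∀ (a b : ℕ → ℝ) (l m : ℝ), BV a → BV b → Qv (fun t => a t + b t) (l + m) ≤ Qv a l + Qv b m) ∧
  (∀ (a : ℕ → ℝ) (l : ℝ), BV a → V a ≤ Qv a l) ∧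
  (∀ (a : ℕ → ℝ) (l : ℝ), BV a → Tendsto a atTop (𝓝 l) → Qv a l ≤ 2 * V a) ∧
  Qv (fun _ => 0) 0 = 0

/-- SMALL (0.4 h). A sequence with small values up to `K`, constant after `K`, has small variation; and the parts of
`w` before and after `K`. PROOF. (i) an increment of `a` along `p` is non-zero only if `min (p (i+1)) K > min (p i) K`,
so the sum is `≤ (2 δ)^2 ∑ (min (p (i+1)) K - min (p i) K) ≤ 4 K δ^2`. (ii) an increment of `r` along `p` is the
increment of `w` along `max p K`. (iii) `V` near the supremum; then the increments after `K = p n` have total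
`≤ δ` because chains can be concatenated. -/
def S_SMALL : Prop :=
  (∀ (a : ℕ → ℝ) (K : ℕ) (δ : ℝ), (∀ t, |a t| ≤ δ) → (∀ t, K ≤ t → a t = a K) →
    VB a (4 * K * δ ^ 2)) ∧
  (∀ (w : ℕ → ℝ) (K : ℕ) (C : ℝ), VB w C → VB (fun t => w (max t K) - w K) C) ∧
  (∀ (a : ℕ → ℝ) (δ : ℝ), BV a → 0 < δ → ∃ K₀ : ℕ, ∀ K, K₀ ≤ K →
    VB (fun t => a (max t K) - a K) δ ∧ V a ^ 2 - δ ≤ V (fun t => a (min t K)) ^ 2 ∧
    V (fun t => a (min t K)) ≤ V a)

/-- SEP (0.7 h, from VBAS, QVBAS). Separated sequences, exact inequalities: `A` is constant from `K` on, `E` is `0` up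
to `K`. (i) lower: chains of `A` inside `[0, K]`, chains of `E` inside `[K, ∞)` are concatenated
(`p` then `q`; the step from `p n ≤ K` to `q 0 ≥ K` is only an additional square). (ii) upper, `E → 0` at infinity:
for a chain `p`, if `p n ≤ K`: only `A` counts (first term). If `p 0 > K`: `qs E + 2 (E (p n))^2 ≤ 2 V(E)^2` by VBAS
(viii). Otherwise `p j ≤ K < p (j+1)`: the step is `(A (p j) - (A K + E (p (j+1))))^2 ≤ 2 (A (p j) - A K)^2 +
2 E (p (j+1))^2`; `qs A j p + 2 (A (p j) - A K)^2 ≤ Qv A (A K)^2`; `2 E (p (j+1))^2 + (increments of E after j+1) +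
2 E (p n)^2 ≤ 2 V(E)^2` (chain `K, p (j+1), ..., p n` and the point at infinity). -/
def S_SEP : Prop := ∀ (A E : ℕ → ℝ) (K : ℕ), (∀ t, K ≤ t → A t = A K) → (∀ t, t ≤ K → E t = 0) → BV E →
  V A ^ 2 + V E ^ 2 ≤ V (fun t => A t + E t) ^ 2 ∧
  (Tendsto E atTop (𝓝 0) →
    Qv (fun t => A t + E t) (A K) ^ 2 ≤ Qv A (A K) ^ 2 + 2 * V E ^ 2)

/-- LOW (0.7 h, from VBAS, SMALL, SEP). The lower 2-estimate. PROOF. Take `K` from SMALL (iii) for `a` (small `δ`),
`A t = a (min t K)`, `E t = w i (max t K) - w i K`. For `i` large `|w i t| ≤ δ'` for `t ≤ K`. Then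
`a + w i = A + E + (small)`, small `= (a t - a (min t K)) + w i (min t K)`, `V(small) ≤ √δ + 2 δ' √K`,
`V(w i) ≤ V(E) + 2 δ' √K`. SEP (i), all `V` are at most `C`-ish, so the errors of the squares are small. -/
def S_LOW : Prop := ∀ (ι : Type) (F : Filter ι) (a : ℕ → ℝ) (w : ι → ℕ → ℝ) (C ε : ℝ),
  BV a → (∀ i, VB (w i) C) → (∀ t, Tendsto (fun i => w i t) F (𝓝 0)) → 0 < ε →
  ∀ᶠ i in F, V a ^ 2 + V (w i) ^ 2 ≤ V (fun t => a t + w i t) ^ 2 + ε

/-- UPP (0.8 h, from VBAS, QVBAS, SMALL, SEP). The upper 2-estimate with almost equal values at infinity. PROOF.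
`K, A, E` as in LOW, `E' t = E t - (m i - w i K) 1_(t > K)` tends to `0` and is `0` up to `K`. `(a + w i, l + m i) =
(A + E', A K) + (rest)`, where rest `= (a t - a (min t K) + w i (min t K) + (m i - w i K) 1_(t > K), l - a K + m i)`
has `Qv` at most `2 √δ'' + ...`: all terms are small (`|l - a K|` is small for `K` large, `Qv (1_(t>K)) 1 ≤ 2`).
`V(E') ≤ V(w i) + |m i| + small`, `Qv A (A K) ≤ Qv a l + small`. `δ` has to be `≤ ε / (100 (C + 1))` or so. -/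
def S_UPP : Prop := ∀ (C ε : ℝ), 0 < ε → ∃ δ : ℝ, 0 < δ ∧
  ∀ (ι : Type) (F : Filter ι) (a : ℕ → ℝ) (l : ℝ) (w : ι → ℕ → ℝ) (m : ι → ℝ),
    VB a C → Tendsto a atTop (𝓝 l) → (∀ i, VB (w i) C) → (∀ i, Tendsto (w i) atTop (𝓝 (m i))) →
    (∀ t, Tendsto (fun i => w i t) F (𝓝 0)) → (∀ᶠ i in F, |m i| ≤ δ) →
    ∀ᶠ i in F, Qv (fun t => a t + w i t) (l + m i) ^ 2 ≤ Qv a l ^ 2 + 2 * V (w i) ^ 2 + ε

/-- ULT (0.5 h). Ultrafilter facts. PROOF. Bounded real functions converge along ultrafilters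
(`isCompact_Icc.ultrafilter_le_nhds`, `tendsto_nhds_limUnder`). `PL`: induction on `r`, `qs` is a finite sum of
coordinates, so `VB` passes to limits. The marginals of `UP` by induction on `j` (`Filter.eventually_bind`,
`Ultrafilter.bind`, eventually along `UU.map`), the shape of the pairs too (`n' ≠ n` for `UU`-almost all `n'`:
`Filter.hyperfilter_le_cofinite`). -/
def S_ULT : Prop :=
  (∀ (α : Type) (U : Ultrafilter α) (φ : α → ℝ) (R : ℝ), (∀ x, |φ x| ≤ R) →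
    Tendsto φ U (𝓝 (ulim U φ)) ∧ |ulim U φ| ≤ R) ∧
  (∀ (i : ℕ) (P : List ℕ → Prop), (∀ᶠ u in (UN (i + 1) : Filter (List ℕ)), P u) ↔
    ∀ᶠ u in (UN i : Filter (List ℕ)), ∀ᶠ n in (UU : Filter ℕ), P (n :: u)) ∧
  (∀ i : ℕ, ∀ᶠ u in (UN i : Filter (List ℕ)), u.length = i) ∧
  (∀ (k j : ℕ) (P : List ℕ × List ℕ → Prop), (∀ᶠ c in (UP k (j + 1) : Filter (List ℕ × List ℕ)), P c) ↔
    ∀ᶠ c in (UP k j : Filter (List ℕ × List ℕ)), ∀ᶠ n in (UU : Filter ℕ), ∀ᶠ n' in (UU : Filter ℕ),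
      P (n :: c.1, n' :: c.2)) ∧
  (∀ (k j : ℕ) (P : List ℕ → Prop), (∀ᶠ u in (UN (k + j) : Filter (List ℕ)), P u) →
    ∀ᶠ c in (UP k j : Filter (List ℕ × List ℕ)), P c.1 ∧ P c.2) ∧
  (∀ k j : ℕ, ∀ᶠ c in (UP k (j + 1) : Filter (List ℕ × List ℕ)), ∃ (x y u : List ℕ) (n n' : ℕ),
    c = (x ++ n :: u, y ++ n' :: u) ∧ n ≠ n' ∧ x.length = j ∧ y.length = j ∧ u.length = k) ∧
  (∀ (g : List ℕ → ℕ → ℝ) (R : ℝ), (∀ u, VB (g u) R ∧ ∀ t, |g u t| ≤ R) → ∀ (r : ℕ) (u : List ℕ),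
    VB (PL g r u) R ∧ (∀ t, |PL g r u t| ≤ R) ∧
    ∀ t, Tendsto (fun n => PL g r (n :: u) t) (UU : Filter ℕ) (𝓝 (PL g (r + 1) u t)))

/-- LSUM (0.6 h, from VBAS, LOW, ULT). The lower estimate along a branch. PROOF. `v i = ulim (UN i) V(Dl h L i)`.
Induction on `i ≤ L`: for every `ε > 0`, for `UN i`-almost all `u`, `∑_(j ≤ i) v j ^ 2 ≤ V(PL h (L - i) u)^2 + i ε`.
Step: `u = n :: u'`, `a = PL h (L - i + 1) u'`, `w n = Dl h L i (n :: u')` tends to `0` coordinatewise, LOW; and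
`V(w n)` is near `v i`. At `i = L`, `PL h 0 u = h u`; take one `u`, then `ε → 0`. -/
def S_LSUM : Prop := ∀ (h : List ℕ → ℕ → ℝ) (L : ℕ) (D : ℝ), GB h → 0 ≤ D →
  (∀ u : List ℕ, u.length = L → V (h u) ≤ D) →
  ∑ i ∈ Finset.Icc 1 L, (ulim (UN i) fun u => V (Dl h L i u)) ^ 2 ≤ D ^ 2

/-- USUM (1 h, from VBAS, QVBAS, UPP, ULT). The upper estimate for interlaced pairs. PROOF. `v i = ulim (UN i)
V(Dl g m i)`, `li a` = the limit of `a` at infinity (VBAS (vi)), `cc i = ulim (UN i) li(PL g (m - i))`. Induction on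
`j ≤ m - k`: for `ε > 0`, for `UP k j`-almost all `(x, y)`, with `P = PL g (m - k - j)`,
`Qv (P x - P y) (li (P x) - li (P y))^2 ≤ 8 ∑_(k < i ≤ k + j) v i ^ 2 + j ε`. `j = 0`: `x = y`. Step: `a = P' x' - P' y'`
(`P' = PL g (m - k - j)`), `w (n, n') = Dl g m i (n :: x') - Dl g m i (n' :: y')`, `i = k + j + 1`, along the filter
`∀ᶠ n, ∀ᶠ n'` (`Filter.curry` or `Filter.bind`): coordinatewise it tends to `0`; its value at infinity is
`[li P(n::x') - li P' x'] - [li P(n'::y') - li P' y']`, and all four numbers are close to `cc i` resp. `cc (i-1)` (for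
almost all `x', y'`, for almost all `n, n'`), so it is `≤ δ`; `V(w) ≤ V(Dl (n::x')) + V(Dl (n'::y')) ≤ 2 v i + small`.
UPP. At `j = m - k`: `P = g`, the pair has the shape of ULT (vi), `θ ≤ V(g x - g y) ≤ Qv`. -/
def S_USUM : Prop := ∀ (g : List ℕ → ℕ → ℝ) (k m : ℕ) (θ : ℝ), GB g → k < m → 0 ≤ θ →
  (∀ (x y u : List ℕ) (n n' : ℕ), n ≠ n' → x.length = y.length → u.length = k →
    (x ++ n :: u).length = m → θ ≤ V (fun t => g (x ++ n :: u) t - g (y ++ n' :: u) t)) →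
  θ ^ 2 ≤ 8 * ∑ i ∈ Finset.Ioc k m, (ulim (UN i) fun u => V (Dl g m i u)) ^ 2

/-- NUM (0.4 h). The doubling inequality. PROOF. `M(m, m')^2 = ∑_(i ∈ Icc 1 (2^s)) w i m m' ^ 2`. By induction on `j`:
`M(m, m + 2^j)^2 ≤ 4^j (D^2 - j θ^2 / 4)`: with `l = 2^j`, for `i ≤ m + l`: `w i m (m+2l)^2 ≤ 2 w i m (m+l)^2 +
2 w i (m+l) (m+2l)^2`; for `i > m + l` only `w i (m+l) (m+2l)^2` (once), and the sum of these squares is `≥ θ^2 l^2`. So
`M(m, m+2l)^2 ≤ 2 M(m, m+l)^2 + 2 M(m+l, m+2l)^2 - θ^2 l^2`. `j = s`, `m = 0`: negative. -/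
def S_NUM : Prop := ∀ (D θ : ℝ) (s : ℕ) (w : ℕ → ℕ → ℕ → ℝ), 4 * D ^ 2 < s * θ ^ 2 →
  (∀ i m m', 0 ≤ w i m m') →
  (∀ i m m' m'', m ≤ m' → m' ≤ m'' → m'' ≤ 2 ^ s → w i m m'' ≤ w i m m' + w i m' m'') →
  (∀ i m m', m ≤ m' → m' < i → w i m m' = 0) →
  (∀ m : ℕ, m + 1 ≤ 2 ^ s → ∑ i ∈ Finset.Icc (1 : ℕ) (2 ^ s), w i m (m + 1) ^ 2 ≤ D ^ 2) →
  (∀ m m' : ℕ, m < m' → m' ≤ 2 ^ s →
    θ ^ 2 * ((m' : ℝ) - m) ^ 2 ≤ ∑ i ∈ Finset.Ioc m m', w i m m' ^ 2) → False

/-- NOG (0.7 h, from VBAS, ULT, LSUM, USUM, NUM). No countably branching tree of large depth in the finitely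
supported sequences. PROOF. Replace `g u` by `0` for `u.length > N` and subtract `g []`: then `GB g` (`V(g u) ≤ N |D|`,
`|g u t| ≤ V(g u)` because `g u` ends with zeros). `N = 2^s`, `θ^2 = c^2 / 8`, `b m i u = Dl g m i u` if `i ≤ m`, `0`
otherwise, `w i m m' = ulim (UN i) (V(b m' i - b m i))`. Triangle inequality from `V`. For `m' = m + 1`: `b (m+1) i u -
b m i u = Dl h (m+1) i u`, `h u = g u - g u.tail` (because `PL (g ∘ tail) (r+1) = PL g r`), `V(h u) ≤ D` for `u.length =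
m + 1`: LSUM. For `i > m`: `w i m m' = ulim (UN i) V(Dl g m' i)`: USUM with `θ = c (m' - m)`. NUM. -/
def S_NOG : Prop := ∀ (D c : ℝ), 0 < c → ∃ N : ℕ, ¬ ∃ g : List ℕ → ℕ → ℝ,
  (∀ u, ∃ K, ∀ t, K ≤ t → g u t = 0) ∧
  (∀ (n : ℕ) (u : List ℕ), u.length < N → V (fun t => g (n :: u) t - g u t) ≤ D) ∧
  (∀ (x y u : List ℕ) (n n' : ℕ), n ≠ n' → x.length = y.length → (x ++ n :: u).length ≤ N →
    c * (x.length + 1) ≤ V (fun t => g (x ++ n :: u) t - g (y ++ n' :: u) t))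

/-- JAM (1 h, from VBAS). James' space. PROOF. `E = lp (fun c : ℕ × {p // Monotone p} => EuclideanSpace ℝ (Fin c.1)) ∞`,
`j a = (fun c => (a (p (i+1)) - a (p i))_(i < c.1))`, `X` = the topological closure of the range of `j` (a closed subspace
of a Banach space; separable, because rational combinations of the images of `s n = ∑_(t < n) single t 1` are dense).
NOT REFLEXIVE: for `k < m` the functional `φ k m (j a) = a m - a k` is a coordinate of `E`. Let `Φ ∈ X**` be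
`Φ f = ulim UU (fun n => f (j (s n)))` (`‖j (s n)‖ ≤ 1`). If `Φ` is the evaluation at `x ∈ X` then `φ k m x =
lim_n φ k m (s n) = 0` for all `k, m`; so all coordinates of `x` are `0` and `x = 0`. But the functional
`ψ x = ulim UU (fun m => - φ 0 m x)` is linear, `|ψ x| ≤ ‖x‖` and `ψ (j (s n)) = 1` for `n ≥ 1`, so `Φ ψ = 1 ≠ ψ 0`.
(Any other realisation of the completion of `(c_00, V)` is fine.) -/
def S_JAM : Prop := ∃ (X : Type) (_ : NormedAddCommGroup X) (_ : NormedSpace ℝ X),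
  CompleteSpace X ∧ TopologicalSpace.SeparableSpace X ∧
  ¬ Function.Surjective (NormedSpace.inclusionInDoubleDual ℝ X) ∧
  ∃ j : (ℕ →₀ ℝ) →ₗ[ℝ] X, DenseRange j ∧ ∀ a : ℕ →₀ ℝ, ‖j a‖ = V a

/-- The countably branching tree of depth `N` sits in the metric space `M` at scale `s`. -/
def CT (M : Type) [MetricSpace M] (N : ℕ) (s : ℝ) : Prop := ∃ m : List ℕ → M,
  (∀ (n : ℕ) (u : List ℕ), u.length < N → dist (m (n :: u)) (m u) ≤ 9 / 4 * s) ∧
  (∀ (x y u : List ℕ) (n n' : ℕ), n ≠ n' → x.length = y.length → (x ++ n :: u).length ≤ N →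
    3 / 2 * (x.length + 1) * s ≤ dist (m (x ++ n :: u)) (m (y ++ n' :: u)))

/-- NEJ (0.5 h, from VBAS, NOG). A metric space which embeds with distortion `C` in the space of JAM contains no
countably branching tree of depth `N(C)`. PROOF. `f ∘ m` divided by `3/2 * r * s` has steps `≤ 3 C / 2` and
separation `≥ length + 1`; approximate each `f (m u)` up to `1/8` by `j (g u)`; NOG with `D = 3 C / 2 + 1/4`,
`c = 3 / 4`. -/
def S_NEJ : Prop := ∀ (X : Type) [NormedAddCommGroup X] [NormedSpace ℝ X] (j : (ℕ →₀ ℝ) →ₗ[ℝ] X),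
  DenseRange j → (∀ a : ℕ →₀ ℝ, ‖j a‖ = V a) → ∀ C : ℝ, ∃ N : ℕ, ∀ (M : Type) [MetricSpace M]
    (f : M → X) (r : ℝ), 0 < r → (∀ x y, r * dist x y ≤ dist (f x) (f y)) →
    (∀ x y, dist (f x) (f y) ≤ C * r * dist x y) → ∀ s : ℝ, 0 < s → ¬ CT M N s

/-! ### Part B: trees without countably branching subtrees embed in a reflexive space -/

/-- HULL (1 h). The real tree of a tree-like space. PROOF. `H` = quotient of `{(x, t) | 0 ≤ t ≤ dist x o}` by
`(x, t) ~ (y, t') ↔ t = t' ∧ t ≤ gp o x y` (`Pool.Agent.Helper84.TR.gp`, `gp_tree`); `dep (x, t) = t`, `res (x, t) s =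
(x, s)` for `0 ≤ s ≤ t` (else itself), `gp ((x, s), (y, t)) = min (min s t) (gp o x y)`, `i x = (x, dist x o)`. -/
def S_HULL : Prop := ∀ (M : Type) [MetricSpace M], Pool.Agent.Helper84.TR.TL M → ∀ o : M,
  ∃ (H : Type) (_ : MetricSpace H) (R : RT H) (i : M → H),
    (∀ x y, dist (i x) (i y) = dist x y) ∧ ∀ x, R.dep (i x) = dist x o

/-- RTB (0.5 h). Basic facts on rooted real trees. PROOF. From the axioms; (iv) from `res_eq` at depth
`min (gp x z) (gp z y)`; `le p q ↔ gp p q = dep p`; (viii) the four point condition from (iv). -/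
def S_RTB : Prop := ∀ (H : Type) [MetricSpace H] (R : RT H),
  (∀ x, 0 ≤ R.dep x ∧ R.gp x x = R.dep x) ∧
  (∀ x y, R.gp x y ≤ R.dep y) ∧
  (∀ x t, 0 ≤ t → t ≤ R.dep x → R.le (R.res x t) x ∧ R.gp x (R.res x t) = t ∧
    dist x (R.res x t) = R.dep x - t) ∧
  (∀ x y z, min (R.gp x z) (R.gp z y) ≤ R.gp x y) ∧
  (∀ p q, R.le p q ↔ R.gp p q = R.dep p) ∧
  (∀ p q r, R.le p q → R.le q r → R.le p r) ∧
  (∀ p q r, R.le p r → R.le q r → R.dep p ≤ R.dep q → R.le p q) ∧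
  (Pool.Agent.Helper84.TR.TL H) ∧
  (∀ p q, R.le p q → R.le q p → p = q) ∧
  (∀ x s t, 0 ≤ s → s ≤ t → t ≤ R.dep x → dist (R.res x s) (R.res x t) = t - s) ∧
  (∀ p q x t, R.le p x → 0 ≤ t → t ≤ R.dep p → R.le (R.res x t) q → R.res p t = R.res q t)

/-- The rule for the kept points of one scale `s`: of `N` consecutive (double) steps through nodes near `A` at
least one goes through a kept point. -/
def KeptOK {H : Type} [MetricSpace H] (R : RT H) (A : Set H) (s : ℝ) (N : ℕ) (kp : H → Set H) : Prop :=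
  ∀ (x : H) (k : ℕ), 1 ≤ k → (k + 2 * N) * s ≤ R.dep x →
    (∀ i : ℕ, i ≤ N → Near A (s / 8) (R.res x ((k + 2 * i) * s))) →
    ∃ i : ℕ, i < N ∧ R.res x ((k + 2 * i + 1) * s) ∈ kp (R.res x ((k + 2 * i) * s))

/-- KEPT (0.8 h). The choice of the kept points by ranks. PROOF. `SK (K+1) v → SK K v` (induction). For a node `v`
(`dep v = k s`, `k ≥ 1`) near `A`: `ρ v` = the largest `K < N` with `SK K v` (`SK 0` holds, `SK N` fails),
`kp v = {u' | le v u', dep u' = dep v + s, ∃ u, le u' u, dep u = dep v + 2 s, Near u, SK (ρ v) u}`: finite, because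
`SK (ρ v + 1) v` fails. Other `v`: `kp v = ∅`. RULE: if none of the steps is kept, `u = res x ((k + 2 i + 2) s)` is near
and above `u' = res x ((k + 2 i + 1) s)`, so `SK (ρ v) u` fails, `ρ (v_(i+1)) < ρ (v_i)` for all `i < N`, but
`ρ (v_0) < N`. -/
def S_KEPT : Prop := ∀ (H : Type) [MetricSpace H] (R : RT H) (A : Set H) (s : ℝ) (N : ℕ), 0 < s →
  (∀ (v : H) (k : ℕ), 1 ≤ k → R.dep v = k * s → Near A (s / 8) v → ¬ SK R A s N v) →
  ∃ kp : H → Set H, (∀ v, (kp v).Finite) ∧ (∀ v u, u ∈ kp v → R.le v u) ∧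
    (∀ v u, u ∈ kp v → R.dep u = R.dep v + s) ∧ KeptOK R A s N kp

/-- SUBT (0.8 h). From `SK N v` to the countably branching tree in `A`. PROOF. By recursion on the list: `F [] = v`,
`F (n :: u) = u_n(F u)` where `u'_n(F u)` are different points of the infinite set (of the definition of `SK (N - length
u) (F u)`) and `u_n` above `u'_n`. `m u` = a point of `A` at distance `≤ s/8` of `F u`. `dist (F (n::u)) (F u) = 2 s`;
`F (x ++ n :: u)` and `F (y ++ n' :: u)` (`x, y` of length `l`) lie above different points of depth `dep (F u) + s`, so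
they separate before this depth, and their distance is `≥ 2 (2 (l+1) s - s) ≥ 2 (l+1) s`; minus `s/4`. -/
def S_SUBT : Prop := ∀ (H : Type) [MetricSpace H] (R : RT H) (A : Set H) (s : ℝ) (N : ℕ) (v : H), 0 < s →
  Near A (s / 8) v → SK R A s N v → CT A N s

section Cuts

/-- LOC (0.5 h, from RTB). Cut points depend only on the path up to just above them. PROOF. Strong induction on `n`:
shrink `z'` to `min z' (gp x y)` (`> z`), all the points `res x t`, `t ≤ gp x y`, are `res y t`; the point `y₀` above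
`res x z'` is above the lower point. (ii), (iii) easy consequences. -/
def S_LOC : Prop := ∀ (H : Type) [MetricSpace H] (D : CD H),
  (∀ (n : ℕ) (x y : H) (z : ℝ), z < D.R.gp x y → D.CP n x z → D.CP n y z) ∧
  (∀ p q r : H, D.conn p q → D.conn q r → D.conn p r) ∧
  (∀ p q r : H, D.conn p r → D.R.le p q → D.R.le q r → D.conn p q ∧ D.conn q r)

/-- ONE (0.6 h, from RTB). At most one coarse cut in a slab. PROOF. Let `z₁ < z₂` be cut points of scales `n₁, n₂ ≤ n`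
in `[k s_n, (k+1) s_n)`. The multiple `k_i s_(n_i)` of their definition is `≤ k s_n` (it is a multiple of `s_n`,
`≤ z_i < (k+1) s_n`). `n₁ < n₂`: the last condition of `CP n₂ x z₂` excludes `z₁`. `n₁ = n₂`: same multiple; just above
`z₁` not `Prot`, but up to `z₂` `Prot`: contradiction. `n₂ < n₁`: on `(k₂ s_(n₂), z₂]` we have `Prot n₂`, hence
`Prot n₁`, contradiction just above `z₁`. -/
def S_ONE : Prop := ∀ (H : Type) [MetricSpace H] (D : CD H) (x : H) (n k n₁ n₂ : ℕ) (z₁ z₂ : ℝ),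
  1 ≤ n → n₁ ≤ n → n₂ ≤ n → k * D.s n ≤ z₁ → z₁ < z₂ → z₂ < (k + 1) * D.s n →
  D.CP n₁ x z₁ → D.CP n₂ x z₂ → False

/-- WIN (1 h, from RTB, ONE). Every slab of scale `n - 1` contains an uncut slab of scale `n`. PROOF. (a) if
`res x ((k+1) s_n) ∈ kept n (res x (k s_n))` and no cut of scale `< n` lies in `[k s_n, (k+1) s_n)`, then no cut at all: a
cut `z` there of scale `n₁ ≥ n` has multiple `k₁ s_(n₁) ≥ k s_n`, `z' ≤ (k₁+1) s_(n₁) ≤ (k+1) s_n`, and all points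
`res x t`, `k s_n < t ≤ (k+1) s_n`, are `Prot n`, hence `Prot n₁`. (b) the two runs `k = k'B + 1 + 2 i` and
`k = k'B + 2N + 2 + 2 i` (`i < N`): the (at most one) cut of scale `< n` in `[k' s_(n-1), (k'+1) s_(n-1))` spoils slabs of
at most one run; the other run contains a kept step. -/
def S_WIN : Prop := ∀ (H : Type) [MetricSpace H] (D : CD H) (A : Set H) (N : ℕ) (x : H) (n k' : ℕ),
  2 ≤ n → 4 * N + 4 ≤ D.B → (k' + 1) * D.s (n - 1) ≤ D.R.dep x →
  KeptOK D.R A (D.s n) N (D.kept n) →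
  (∀ k : ℕ, k' * D.B < k → k < (k' + 1) * D.B → Near A (D.s n / 8) (D.R.res x (k * D.s n))) →
  ∃ k : ℕ, k' * D.B < k ∧ k + 1 < (k' + 1) * D.B ∧
    ∀ (n₁ : ℕ) (z : ℝ), k * D.s n ≤ z → z < (k + 1) * D.s n → ¬ D.CP n₁ x z

/-- FINB (0.7 h, from RTB, LOC). Finite branching. PROOF. If `q` is in the set but not `Prot n`: `z` = the largest
`t ∈ [k s_n, (k+1) s_n]` with `t = k s_n` or `res q t` `Prot n` (on this interval `Prot n` is a finite union of initial
intervals `t ≤ gp q u`, `u ∈ kept i (res q (k_i s_i))`, closed); then `CP n q z` (no coarser cut because of `conn v q`),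
contradiction to `conn v q`. So `q` is `Prot n`: `q` lies below a point `u ∈ kept i (res v (k_i s_i))`, `i ≤ n`, `k_i s_i`
the largest multiple of `s_i` with `k_i s_i ≤ k s_n`: finitely many `u`, and `q = res u (dep q)`. -/
def S_FINB : Prop := ∀ (H : Type) [MetricSpace H] (D : CD H) (n k : ℕ) (v : H), 1 ≤ n → 1 ≤ k →
  D.R.dep v = k * D.s n →
  Set.Finite {q : H | D.conn v q ∧ D.R.dep q = (k + 1) * D.s n ∧
    ∃ y, D.R.le q y ∧ (k + 2) * D.s n ≤ D.R.dep y}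

/-- TB (0.8 h, from RTB, LOC, FINB). The pieces are totally bounded. PROOF. `m ≥ n` with `2 s_m < ε`; `dep v = k₀ s_m`. By
induction on `j ≤ B^(m-n)`: `A_j = {q ∈ Pc n v | dep q = (k₀ + j) s_m, ∃ y ≥ q, dep y ≥ (k₀ + j + 1) s_m}` is finite
(`A_(j+1)` is contained in the union over `q ∈ A_j` of the sets of FINB at scale `m`). A point `p` of the piece with
`(k₀ + j) s_m < dep p ≤ (k₀ + j + 1) s_m` (`j ≥ 1`) is at distance `≤ 2 s_m` of `res p ((k₀ + j - 1) s_m) ∈ A_(j-1)`; for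
`j = 0` of `v`. -/
def S_TB : Prop := ∀ (H : Type) [MetricSpace H] (D : CD H) (n k : ℕ) (v : H), 1 ≤ n → 1 ≤ k →
  D.R.dep v = k * D.s n → TotallyBounded (D.Pc n v)

/-- PEMB (0.5 h, from RTB, TB). The pieces embed (`Pool.Agent.Helper84.TR.embG` with one tree, the subtype `Pc n v`,
base point `v`, then subtract the image of `v`). -/
def S_PEMB : Prop := ∀ (H : Type) [MetricSpace H] (D : CD H) (n k : ℕ) (v : H), 1 ≤ n → 1 ≤ k →
  D.R.dep v = k * D.s n →
  ∃ f : H → Pool.Agent.Helper84.TR.HN 1, f v = 0 ∧ ∀ p ∈ D.Pc n v, ∀ q ∈ D.Pc n v,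
    1 / 640 * dist p q ≤ dist (f p) (f q) ∧ dist (f p) (f q) ≤ 21 * dist p q

/-- PRJ (1 h, from RTB, LOC). The projections on the pieces of leaders. PROOF. For `v ≤ x`: the set of `ex` is an
interval `[dep v, e]`, `e` is attained (no cut in `[dep v, t)` for all `t < e`; the path of `res x t` has the cuts of `x`
by LOC). (iii) for `g = gp x y`: if `v ≤ x`, not `v ≤ y`: `dep v > g`... the distance of the projections is
`ex c x - dep v`. If `v ≤ x, y`: if `ex c x < g` then `ex c y = ex c x` (same path up to `g > ex`), the distance is `0`;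
otherwise `ex c y ≥ g` too and the distance is `(ex c x - g) + (ex c y - g)` (the projections are `res x (ex c x)` and
`res y (ex c y)`). So the distance is `|J_c(x) ∩ (g, ∞)| + |J_c(y) ∩ (g, ∞)|`, `J_c(x) = (dep v, ex c x]` (`∅` if not
`v ≤ x`). -/
def S_PRJ : Prop := open Classical in ∀ (H : Type) [MetricSpace H] (D : CD H) (c : ℕ × H), D.Lead c →
  (∀ x, D.pr c x ∈ D.Pc c.1 c.2) ∧
  (∀ x, D.R.le c.2 x → D.R.dep c.2 ≤ D.ex c x ∧ D.ex c x ≤ D.R.dep x ∧ D.R.res x (D.ex c x) ∈ D.Pc c.1 c.2) ∧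
  (∀ x y, dist (D.pr c x) (D.pr c y) =
    (if D.R.le c.2 x then max 0 (D.ex c x - max (D.R.gp x y) (D.R.dep c.2)) else 0) +
    (if D.R.le c.2 y then max 0 (D.ex c y - max (D.R.gp x y) (D.R.dep c.2)) else 0)) ∧
  (∀ x, ¬ (D.R.le c.2 x ∧ c.2 ≠ x) → D.pr c x = c.2)

/-- DIS (0.9 h, from RTB, LOC, PRJ). The pieces of different leaders are disjoint; the sum of the projections.
PROOF. Let `t` lie in `(dep v, ex c x]` and in `(dep v', ex c' x]`, `p = res x t`, `conn v p`, `conn v' p`. Equal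
scales: equal multiples (`k s_n < t ≤ (k+1) s_n`), `v = v'`. `n < n'`: `dep v ≤ dep v' < (k+1) s_n` (multiples), `conn v v'`
by LOC (iii), against `Lead (n', v')`. So the intervals `(max g (dep v), ex c x]` are disjoint subintervals of
`(g, dep x]`: the sum of their lengths is `≤ dep x - g` (Lebesgue measure, or sort them); the same for `y`, with PRJ
(iii). -/
def S_DIS : Prop := ∀ (H : Type) [MetricSpace H] (D : CD H) (F : Finset (ℕ × H)) (x y : H),
  (∀ c ∈ F, D.Lead c) → ∑ c ∈ F, dist (D.pr c x) (D.pr c y) ≤ dist x y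

/-- SLB (0.7 h, from RTB, LOC, PRJ). An uncut slab lies in one piece. PROOF. Let `n'` be the least scale with
`conn (v_(n')) (res x ((k+1) s_n))`, where `v_(n')` is the node at the largest multiple `k' s_(n')`, `k' ≥ 1`, which is
`≤ k s_n` (`n` itself is a candidate). `c = (n', v_(n'))` is a leader (a connection of a coarser node with `v_(n')` would
give one with the top by LOC (ii)), and `ex c x ≥ (k+1) s_n` (`(k+1) s_n ≤ (k'+1) s_(n')`). PRJ (iii). -/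
def S_SLB : Prop := ∀ (H : Type) [MetricSpace H] (D : CD H) (x y : H) (n k : ℕ), 1 ≤ n → 1 ≤ k →
  (k + 1) * D.s n ≤ D.R.dep x → (∀ (n₁ : ℕ) (z : ℝ), k * D.s n ≤ z → z < (k + 1) * D.s n → ¬ D.CP n₁ x z) →
  D.R.gp x y ≤ k * D.s n →
  ∃ c : ℕ × H, D.Lead c ∧ D.R.le c.2 x ∧ c.2 ≠ x ∧ D.s n ≤ dist (D.pr c x) (D.pr c y)

/-- The nodes far from `A` (relative to their scale, but not relative to the next coarser scale). -/
def FZ {H : Type} [MetricSpace H] (D : CD H) (A : Set H) : Set (ℕ × H) :=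
  {c | 1 ≤ c.1 ∧ (∃ k : ℕ, 1 ≤ k ∧ D.R.dep c.2 = k * D.s c.1) ∧
    D.s c.1 / 8 < Metric.infDist c.2 A ∧ Metric.infDist c.2 A ≤ D.s (c.1 - 1) / 8}

/-- FZU (1 h, from RTB). The weights of the far nodes. PROOF. `h t = infDist (res x t) A` is 1-Lipschitz in `t`.
For `c ∈ F` the interval `[dep v, dep v + s/16)`, `s = s_(c.1)`, lies in `(g, dep x]` (`x ∈ A` so `dep x - dep v ≥ h >
s/8`; `dep v > g` since not `v ≤ y`). On it `s/16 < h ≤ (B/8 + 1/16) s`. So two intervals of scales `n < n'` with a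
common point have `B^(n'-n) < 2 B + 1`, `n' = n + 1`; equal scales: disjoint. Every point is covered at most twice: the sum
of the lengths `s/16` is `≤ 2 (dep x - g)`. -/
def S_FZU : Prop := ∀ (H : Type) [MetricSpace H] (D : CD H) (A : Set H) (x y : H) (F : Finset (ℕ × H)),
  x ∈ A → (∀ c ∈ F, c ∈ FZ D A ∧ D.R.le c.2 x ∧ ¬ D.R.le c.2 y) →
  ∑ c ∈ F, D.s c.1 ≤ 32 * (D.R.dep x - D.R.gp x y)

/-- FZL (0.6 h, from RTB). Existence of a far node. PROOF. `h` as in FZU: `h t ≥ s_n / 8`, `h (dep x) = 0`; by the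
intermediate value theorem `h t' = s_n / 16` for a `t' ∈ [t, dep x]`; `k = ⌈t' / s_(n+1)⌉`, `v = res x (k s_(n+1))`:
`k s_(n+1) ≤ t' + s_(n+1) ≤ dep x` (`dep x - t' ≥ s_n / 16 ≥ s_(n+1)`), and `|h - s_n / 16| ≤ s_(n+1)`,
`s_n = B s_(n+1)`, `B ≥ 20`. -/
def S_FZL : Prop := ∀ (H : Type) [MetricSpace H] (D : CD H) (A : Set H) (x : H) (n : ℕ) (t g : ℝ),
  x ∈ A → 1 ≤ n → 0 ≤ g → g < t → t ≤ D.R.dep x → ¬ Near A (D.s n / 8) (D.R.res x t) →
  ∃ c ∈ FZ D A, c.1 = n + 1 ∧ D.R.le c.2 x ∧ g < D.R.dep c.2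

/-- CNT (0.4 h, from RTB). Countably many nodes. PROOF. A countable dense subset `S` of `A`; for `x ∈ A` with `v ≤ x`,
`v ≠ x` a point `y ∈ S` at distance `< dep x - dep v` of `x` has `gp x y > dep v`, so `v = res y (dep v)`; `dep v = k s_n`.
-/
def S_CNT : Prop := ∀ (H : Type) [MetricSpace H] (D : CD H) (A : Set H), TopologicalSpace.IsSeparable A →
  Set.Countable {c : ℕ × H | (∃ k : ℕ, D.R.dep c.2 = k * D.s c.1) ∧ ∃ x ∈ A, D.R.le c.2 x ∧ c.2 ≠ x}

end Cuts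

/-- LPS (0.5 h). Sums of coordinates. PROOF. An injection `e` of `ι` into `ℕ`; `Φ x k = φ c x` if `k = e c`, `0`
otherwise; it is in `ℓ_1`, so in `ℓ_2` (`∑ ‖φ c x‖ ≤ C dist x o` by the hypothesis with `y = o`), and the `ℓ_2` norm is
at most the `ℓ_1` norm (finite sums: `norm_le_supp` in Helper85/TS/Glue.lean is similar). -/
def S_LPS : Prop := ∀ (ι : Type) [Countable ι] (M : Type) [MetricSpace M] (X : Type) [NormedAddCommGroup X]
  [NormedSpace ℝ X] (o : M) (φ : ι → M → X) (C : ℝ), 0 ≤ C → (∀ c, φ c o = 0) →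
  (∀ (F : Finset ι) (x y : M), ∑ c ∈ F, ‖φ c x - φ c y‖ ≤ C * dist x y) →
  ∃ Φ : M → lp (fun _ : ℕ => X) 2, Φ o = 0 ∧ (∀ x y, dist (Φ x) (Φ y) ≤ C * dist x y) ∧
    ∀ c x y, dist (φ c x) (φ c y) ≤ dist (Φ x) (Φ y)

/-- The host space of the bounded part. -/
abbrev H1 : Type := lp (fun _ : ℕ => Pool.Agent.Helper84.TR.HN 1 × ℝ) 2

/-- The host space. -/
abbrev HH : Type := lp (fun _ : ℤ => H1) 2 × ℝ

/-- EMBB (1.2 h, from RTB, KEPT, WIN, PEMB, PRJ, DIS, SLB, FZU, FZL, CNT, LPS). Bounded part. PROOF. `B = 4 N + 20`,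
`D : CD H` from `R, Δ, B` and `kept n` of KEPT at scale `s_n` (`n ≥ 1`; `∅` for `n = 0`). Index set: the (countable) set
of leaders `c` below a point of `A` and different from it, and the far nodes below a point of `A` (LPS on the subtype
`A`, `X = HN 1 × ℝ`; first kind: `φ c x = (f_c (pr c x), 0)`, PEMB, `∑ ≤ 21 dist` by DIS; second kind: `φ c x =
(0, s_(c.1) if c.2 ≤ x else 0)`, `∑ ≤ 32 dist` by FZU for `(x, y)` and `(y, x)`, `dist x y = (dep x - g) + (dep y - g)`).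
At the root everything is `0` (nodes have positive depth). So `C = 53`. LOWER: `L = dep x - g ≥ dep y - g`, `L > 0`,
`dist x y ≤ 2 L`. The least `n ≥ 2` with `2 s_(n-1) ≤ L` (exists; `L ≤ Δ < 2 s_0`, so `2 s_(n-2) > L`, `s_n > L / (2 B^2)`);
`k' = ⌈g / s_(n-1)⌉`, `(k'+1) s_(n-1) ≤ g + 2 s_(n-1) ≤ dep x`. If all nodes `res x (k s_n)`, `k'B < k < (k'+1)B`, are
near: WIN, SLB: `s_n / 640 ≤`. Otherwise FZL: a far node of scale `n + 1` below `x` and not below `y` (`dep > g`): `s_(n+1)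
≤`. `c = 1 / (4 * 640 * B^3)` works. -/
def S_EMBB : Prop := ∀ N : ℕ, ∃ c : ℝ, 0 < c ∧ ∀ (H : Type) [MetricSpace H] (R : RT H) (A : Set H) (Δ : ℝ),
  0 < Δ → TopologicalSpace.IsSeparable A → (∀ x ∈ A, R.dep x ≤ Δ) → (∃ o ∈ A, R.dep o = 0) →
  (∀ (s : ℝ) (v : H), 0 < s → Near A (s / 8) v → ¬ SK R A s N v) →
  ∃ Φ : H → H1, ∀ x ∈ A, ‖Φ x‖ ≤ 53 * R.dep x ∧ ∀ y ∈ A,
    c * dist x y ≤ dist (Φ x) (Φ y) ∧ dist (Φ x) (Φ y) ≤ 53 * dist x y

/-- EMBU (0.8 h, from HULL, SUBT, EMBB). The embedding. PROOF. HULL with a base point `o`; for `k : ℤ`,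
`A_k = i '' {x | dist x o ≤ 2^(k+2)}`, `Δ = 2^(k+2)`; `SK R A_k s N v` and `Near A_k (s/8) v` would give `CT A_k N s` (SUBT),
hence `CT M N s`. EMBB; glue the maps `Φ_k ∘ i` with `Pool.Agent.Helper85.TS.glue` (`L = 53`, `K = 4 * 53`). -/
def S_EMBU : Prop := ∀ N : ℕ, ∃ c C : ℝ, 0 < c ∧ 0 < C ∧ ∀ (M : Type) [MetricSpace M]
  [TopologicalSpace.SeparableSpace M], Pool.Agent.Helper84.TR.TL M → (∀ s : ℝ, 0 < s → ¬ CT M N s) →
  ∃ h : M → HH, ∀ x y, c * dist x y ≤ dist (h x) (h y) ∧ dist (h x) (h y) ≤ C * dist x y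

end Pool.Agent.Helper62.NT
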