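import Pool.Agent.Helper62.NT.Scl

set_option autoImplicit false

namespace Pool.Agent.Helper62.NT.LOC

open Pool.Agent.Helper62.NT

variable {H : Type} [MetricSpace H]

theorem res_agree (R : RT H) (h1 : ∀ x y, R.gp x y ≤ R.dep y) {x y : H} {t : ℝ} (ht : 0 ≤ t)
    (h : t ≤ R.gp x y) : R.res x t = R.res y t :=
  (R.res_eq x y t ht (h.trans (R.gp_le x y)) (h.trans (h1 x y))).2 h

theorem cp_loc (hR : S_RTB) (D : CD H) (n : ℕ) : ∀ (x y : H) (z : ℝ), z < D.R.gp x y →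
    D.CP n x z → D.CP n y z := by
  obtain ⟨r1, r2, r3, r4, r5, r6, r7, r8, r9, r10, r11⟩ := hR H D.R
  induction n using Nat.strong_induction_on with
  | _ n ih =>
    intro x y z hz h
    rw [CP_iff] at h ⊢
    obtain ⟨k, a1, a2, a3, a4, a5, ⟨z', b1, b2, b3, ⟨w, b4, b5⟩, b6⟩, a6⟩ := h
    have hs := s_pos D n
    have hk0 : 0 ≤ k * D.s n := by positivity
    have hag : ∀ t, k * D.s n ≤ t → t ≤ D.R.gp x y → D.R.res x t = D.R.res y t := fun t h1 h2 =>
      res_agree D.R r2 (hk0.trans h1) h2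
    refine ⟨k, a1, a2, a3, a4, fun t h1 h2 => ?_, ⟨min z' (D.R.gp x y), lt_min b1 hz, ?_, ?_,
      ⟨w, ?_, b5⟩, fun t h1 h2 => ?_⟩, fun n' hn' z'' h1 h2 h3 => ?_⟩
    · rw [← hag t h1.le (h2.trans hz.le)]
      exact a5 t h1 h2
    · exact (min_le_right _ _).trans (r2 x y)
    · exact (min_le_left _ _).trans b3
    · have h1 : k * D.s n ≤ min z' (D.R.gp x y) := a3.trans (lt_min b1 hz).le
      rw [← hag _ h1 (min_le_right _ _)]
      have h0 : 0 ≤ min z' (D.R.gp x y) := hk0.trans h1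
      have h2 : D.R.res (D.R.res x z') (min z' (D.R.gp x y)) =
          D.R.res x (min z' (D.R.gp x y)) := D.R.res_res x _ _ h0 (min_le_left _ _) b2
      rw [← h2]
      have hz0 : 0 ≤ z' := h0.trans (min_le_left _ _)
      have h3 := (r3 (D.R.res x z') (min z' (D.R.gp x y)) h0
        (by rw [D.R.dep_res x z' hz0 b2]; exact min_le_left _ _)).1
      exact r6 _ _ _ h3 b4
    · have h3 : k * D.s n ≤ t := a3.trans h1.le
      rw [← hag t h3 (h2.trans (min_le_right _ _))]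
      exact b6 t h1 (h2.trans (min_le_left _ _))
    · refine a6 n' hn' z'' h1 h2 (ih n' hn' y x z'' ?_ h3)
      rw [D.R.gp_comm]
      exact h2.trans hz

theorem t (hR : S_RTB) : S_LOC := by
  intro H _ D
  obtain ⟨r1, r2, r3, r4, r5, r6, r7, r8, r9, r10, r11⟩ := hR H D.R
  refine ⟨cp_loc hR D, fun p q r h1 h2 => ⟨r6 p q r h1.1 h2.1, fun n z hz1 hz2 h => ?_⟩,
    fun p q r h1 h2 h3 => ⟨⟨h2, fun n z hz1 hz2 h => ?_⟩, ⟨h3, fun n z hz1 hz2 h => ?_⟩⟩⟩
  · rcases lt_or_ge z (D.R.dep q) with h4 | h4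
    · refine h1.2 n z hz1 h4 (cp_loc hR D n r q z ?_ h)
      rw [D.R.gp_comm, (r5 q r).1 h2.1]
      exact h4
    · exact h2.2 n z h4 hz2 h
  · refine h1.2 n z hz1 (hz2.trans_le h3.1) (cp_loc hR D n q r z ?_ h)
    rw [(r5 q r).1 h3]
    exact hz2
  · exact h1.2 n z (h2.1.trans hz1) hz2 h

end Pool.Agent.Helper62.NT.LOC
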