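import Pool.Agent.Helper62.NT.Scl

set_option autoImplicit false

namespace Pool.Agent.Helper62.NT.ONE

open Pool.Agent.Helper62.NT

theorem t : S_ONE := one

end Pool.Agent.Helper62.NT.ONE
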