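import Pool.Agent.Helper62.NT.Fin
import Pool.Agent.Helper62.NT.ONE
import Pool.Agent.Helper4.NT.VBAS
import Pool.Agent.Helper46.NT.QVBAS
import Pool.Agent.Helper25.NT.SMALL
import Pool.Agent.Helper12.NT.SEP
import Pool.Agent.Helper15.NT.LOW
import Pool.Agent.Helper44.NT.UPP
import Pool.Agent.Helper2.NT.ULT
import Pool.Agent.Helper32.NT.LSUM
import Pool.Agent.Helper26.NT.USUM
import Pool.Agent.Helper98.NT.NUM
import Pool.Agent.Helper30.NT.NOG
import Pool.Agent.Helper36.NT.JAM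
import Pool.Agent.Helper83.NT.NEJ
import Pool.Agent.Helper70.NT.HULL
import Pool.Agent.Helper24.NT.RTB
import Pool.Agent.Helper22.NT.KEPT
import Pool.Agent.Helper75.NT.SUBT
import Pool.Agent.Helper62.NT.LOC
import Pool.Agent.Helper81.NT.WIN
import Pool.Agent.Helper20.NT.FINB
import Pool.Agent.Helper73.NT.TB
import Pool.Agent.Helper45.NT.PEMB
import Pool.Agent.Helper23.NT.PRJ
import Pool.Agent.Helper71.NT.DIS
import Pool.Agent.Helper41.NT.SLB
import Pool.Agent.Helper58.NT.FZU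
import Pool.Agent.Helper67.NT.FZL
import Pool.Agent.Helper37.NT.CNT
import Pool.Agent.Helper17.NT.LPS
import Pool.Agent.Helper61.NT.EMBB
import Pool.Agent.Helper31.NT.EMBU

/-! PROJECT NT (MP_8ff381_an): assembly of the packets. -/

set_option autoImplicit false

noncomputable section

namespace Pool.Agent.Helper62.NT.All

open Pool.Agent Pool.Agent.Helper62.NT Pool.Agent.Helper84.TR

theorem vbas : S_VBAS := Helper4.NT.VBAS.t

theorem qvbas : S_QVBAS := Helper46.NT.QVBAS.t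

theorem sep : S_SEP := Helper12.NT.SEP.t vbas qvbas

theorem low : S_LOW := Helper15.NT.LOW.t vbas Helper25.NT.SMALL.t sep

theorem upp : S_UPP := Helper44.NT.UPP.t vbas qvbas Helper25.NT.SMALL.t sep

theorem lsum : S_LSUM := Helper32.NT.LSUM.t vbas low Helper2.NT.ULT.t

theorem usum : S_USUM := Helper26.NT.USUM.t vbas qvbas upp Helper2.NT.ULT.t

theorem nog : S_NOG := Helper30.NT.NOG.t vbas Helper2.NT.ULT.t lsum usum Helper98.NT.NUM.t

theorem jam : S_JAM := Helper36.NT.JAM.t vbas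

theorem nej : S_NEJ := Helper83.NT.NEJ.t nog

theorem rtb : S_RTB := Helper24.NT.RTB.t

theorem loc : S_LOC := Helper62.NT.LOC.t rtb

theorem win : S_WIN := Helper81.NT.WIN.t Helper62.NT.ONE.t

theorem tb : S_TB := Helper73.NT.TB.t rtb loc Helper20.NT.FINB.t

theorem pemb : S_PEMB := Helper45.NT.PEMB.t rtb tb

theorem prj : S_PRJ := Helper23.NT.PRJ.t rtb loc

theorem dis : S_DIS := Helper71.NT.DIS.t rtb loc prj

theorem slb : S_SLB := Helper41.NT.SLB.t rtb loc prj

theorem embb : S_EMBB := Helper61.NT.EMBB.t rtb Helper22.NT.KEPT.t win pemb prj dis slb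
  (Helper58.NT.FZU.t rtb) (Helper67.NT.FZL.t rtb) (Helper37.NT.CNT.t rtb) Helper17.NT.LPS.t

theorem embu : S_EMBU := Helper31.NT.EMBU.t Helper70.NT.HULL.t Helper75.NT.SUBT.t embb

theorem final :
    ∃ (X : Type) (_ : NormedAddCommGroup X) (_ : NormedSpace ℝ X),
      CompleteSpace X ∧ TopologicalSpace.SeparableSpace X ∧
      ¬ Function.Surjective (NormedSpace.inclusionInDoubleDual ℝ X) ∧
      ∀ C D : ℝ, ∃ K : ℝ, ∀ (M : Type) [MetricSpace M],
        (∃ (T : Type) (_ : MetricSpace T) (g : M → T) (q : ℝ), TL T ∧ 0 < q ∧ ∀ x y : M,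
          q * dist x y ≤ dist (g x) (g y) ∧ dist (g x) (g y) ≤ D * q * dist x y) →
        (∃ (f : M → X) (r : ℝ), 0 < r ∧ ∀ x y : M, r * dist x y ≤ dist (f x) (f y) ∧
          dist (f x) (f y) ≤ C * r * dist x y) →
        ∃ (h : M → HH) (t : ℝ), 0 < t ∧ ∀ x y : M, t * dist x y ≤ dist (h x) (h y) ∧
          dist (h x) (h y) ≤ K * t * dist x y :=
  Pool.Agent.Helper62.NT.Fin.main jam nej embu

end Pool.Agent.Helper62.NT.All
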