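import Mathlib
import Pool.Agent.Helper84.TR.Fin

/-!
PROJECT NT (MP_8ff381_an): no family of tree-like metric spaces is a family of test spaces for reflexivity.
Definitions (helper62).

Part A: quadratic variation of sequences, iterated ultrafilter limits (countably branching trees in James' space).
Part B: rooted real trees, cuts, pieces (trees without countably branching subtrees of large depth).
-/

set_option autoImplicit false

noncomputable section

namespace Pool.Agent.Helper62.NT

open Filter Topology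

/-! ### Part A -/

/-- The sum of the squares of the increments of `a` along `p`, `n` steps. -/
def qs (a : ℕ → ℝ) (n : ℕ) (p : ℕ → ℕ) : ℝ :=
  ∑ i ∈ Finset.range n, (a (p (i + 1)) - a (p i)) ^ 2

/-- The quadratic variation of `a` is at most `C`. -/
def VB (a : ℕ → ℝ) (C : ℝ) : Prop := ∀ (n : ℕ) (p : ℕ → ℕ), Monotone p → qs a n p ≤ C

/-- Bounded quadratic variation. -/
def BV (a : ℕ → ℝ) : Prop := ∃ C, VB a C

/-- The square root of the quadratic variation (the seminorm of James). -/
def V (a : ℕ → ℝ) : ℝ := ⨆ c : ℕ × {p : ℕ → ℕ // Monotone p}, Real.sqrt (qs a c.1 c.2.1)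

/-- The same with one more point at infinity of double weight, the value there is `l`. -/
def Qv (a : ℕ → ℝ) (l : ℝ) : ℝ :=
  ⨆ c : ℕ × {p : ℕ → ℕ // Monotone p},
    Real.sqrt (qs a c.1 c.2.1 + 2 * (a (c.2.1 c.1) - l) ^ 2)

/-- The limit along an ultrafilter. -/
def ulim {α : Type} (U : Ultrafilter α) (φ : α → ℝ) : ℝ := limUnder (U : Filter α) φ

/-- A non-principal ultrafilter on `ℕ`. -/
abbrev UU : Ultrafilter ℕ := Filter.hyperfilter ℕ

/-- The nodes of the countably branching tree are lists (the LAST step of the path comes first); the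
ultrafilter of the nodes of level `i`. -/
def UN : ℕ → Ultrafilter (List ℕ)
  | 0 => pure []
  | i + 1 => (UN i).bind fun u => UU.map fun n => n :: u

/-- The ultrafilter of the pairs of nodes of level `k + j` with a common part of length `k`, the steps after it
interlaced: first a step of the first node, then (much larger) a step of the second. -/
def UP (k : ℕ) : ℕ → Ultrafilter (List ℕ × List ℕ)
  | 0 => (UN k).map fun u => (u, u)
  | j + 1 => (UP k j).bind fun c => UU.bind fun n => UU.map fun n' => (n :: c.1, n' :: c.2)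

/-- The iterated limits of `g`, `r` levels down. -/
def PL (g : List ℕ → ℕ → ℝ) : ℕ → List ℕ → ℕ → ℝ
  | 0, u, t => g u t
  | r + 1, u, t => ulim UU fun n => PL g r (n :: u) t

/-- The martingale difference of level `i` of `g` restricted to the level `m` (`u` has length `i`,
`1 ≤ i ≤ m`). -/
def Dl (g : List ℕ → ℕ → ℝ) (m i : ℕ) (u : List ℕ) (t : ℕ) : ℝ :=
  PL g (m - i) u t - PL g (m - i + 1) u.tail t

/-- Uniform bounds. -/
def GB (g : List ℕ → ℕ → ℝ) : Prop := ∃ R, ∀ u, VB (g u) R ∧ ∀ t, |g u t| ≤ R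

/-! ### Part B -/

/-- A rooted real tree: depth, restriction (`res x t` is the point at depth `t` of the path from the root to `x`),
and the depth `gp x y` at which the paths to `x` and `y` separate. -/
structure RT (H : Type) [MetricSpace H] where
  dep : H → ℝ
  res : H → ℝ → H
  gp : H → H → ℝ
  gp_nonneg : ∀ x y, 0 ≤ gp x y
  gp_le : ∀ x y, gp x y ≤ dep x
  gp_comm : ∀ x y, gp x y = gp y x
  dist_eq : ∀ x y, dist x y = dep x + dep y - 2 * gp x y
  dep_res : ∀ x t, 0 ≤ t → t ≤ dep x → dep (res x t) = t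
  res_dep : ∀ x, res x (dep x) = x
  res_eq : ∀ x y t, 0 ≤ t → t ≤ dep x → t ≤ dep y → (res x t = res y t ↔ t ≤ gp x y)
  res_res : ∀ x s t, 0 ≤ s → s ≤ t → t ≤ dep x → res (res x t) s = res x s

variable {H : Type} [MetricSpace H]

/-- `p` lies on the path from the root to `q`. -/
def RT.le (R : RT H) (p q : H) : Prop := R.dep p ≤ R.dep q ∧ R.res q (R.dep p) = p

/-- `p` is at distance at most `δ` from the set `A`. -/
def Near (A : Set H) (δ : ℝ) (p : H) : Prop := ∃ q ∈ A, dist p q ≤ δ

/-- `SK R A s K v`: above `v` sits a countably branching tree of depth `K` with edges of length `2 s`, all nodes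
(except possibly `v`) near `A`, different children of a node separate before the first half of the edge is over. -/
def SK (R : RT H) (A : Set H) (s : ℝ) : ℕ → H → Prop
  | 0, _ => True
  | K + 1, v => Set.Infinite {u' : H | R.le v u' ∧ R.dep u' = R.dep v + s ∧
      ∃ u, R.le u' u ∧ R.dep u = R.dep v + 2 * s ∧ Near A (s / 8) u ∧ SK R A s K u}

/-- Cut data: a rooted real tree, the scales `Δ / B ^ n`, and for each scale `n` and each node `v` a finite set of
points which lie one scale above `v` (the branches which stay attached). -/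
structure CD (H : Type) [MetricSpace H] where
  R : RT H
  Δ : ℝ
  B : ℕ
  kept : ℕ → H → Set H
  hΔ : 0 < Δ
  hB : 20 ≤ B
  fin : ∀ n v, (kept n v).Finite
  kle : ∀ n v u, u ∈ kept n v → R.le v u
  kdep : ∀ n v u, u ∈ kept n v → R.dep u = R.dep v + Δ / B ^ n

/-- The scale number `n`. -/
def CD.s (D : CD H) (n : ℕ) : ℝ := D.Δ / D.B ^ n

/-- The location `p` is protected at some scale `≤ n` (coarser or equal). -/
def CD.Prot (D : CD H) (n : ℕ) (p : H) : Prop :=
  ∃ i k : ℕ, 1 ≤ i ∧ i ≤ n ∧ 1 ≤ k ∧ k * D.s i < D.R.dep p ∧ D.R.dep p ≤ (k + 1) * D.s i ∧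
    ∃ u ∈ D.kept i (D.R.res p (k * D.s i)), D.R.le p u

/-- The path to `x` has a cut point of scale `n` at the depth `z` (the cut is just above the depth `z`). -/
def CD.CP (D : CD H) (n : ℕ) (x : H) (z : ℝ) : Prop :=
  ∃ k : ℕ, 1 ≤ n ∧ 1 ≤ k ∧ k * D.s n ≤ z ∧ z < (k + 1) * D.s n ∧
    (∀ t, k * D.s n < t → t ≤ z → D.Prot n (D.R.res x t)) ∧
    (∃ z', z < z' ∧ z' ≤ D.R.dep x ∧ z' ≤ (k + 1) * D.s n ∧
      (∃ y, D.R.le (D.R.res x z') y ∧ (k + 2) * D.s n ≤ D.R.dep y) ∧
      ∀ t, z < t → t ≤ z' → ¬ D.Prot n (D.R.res x t)) ∧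
    ∀ n', n' < n → ∀ z'', k * D.s n ≤ z'' → z'' < z → ¬ D.CP n' x z''
termination_by n

/-- `p` and `q` are connected (`p` below `q`): no cut point between them. -/
def CD.conn (D : CD H) (p q : H) : Prop :=
  D.R.le p q ∧ ∀ n z, D.R.dep p ≤ z → z < D.R.dep q → ¬ D.CP n q z

/-- The piece of scale `n` at the node `v`. -/
def CD.Pc (D : CD H) (n : ℕ) (v : H) : Set H :=
  {p | D.R.dep p ≤ D.R.dep v + D.s n ∧ D.conn v p}

/-- `(n, v)` is a leader: `v` is a node of scale `n` which is not connected to the node of any coarser scale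
at or below `v`. -/
def CD.Lead (D : CD H) (c : ℕ × H) : Prop :=
  1 ≤ c.1 ∧ (∃ k : ℕ, 1 ≤ k ∧ D.R.dep c.2 = k * D.s c.1) ∧
    ∀ n' k' : ℕ, 1 ≤ n' → n' < c.1 → 1 ≤ k' → k' * D.s n' ≤ D.R.dep c.2 →
      D.R.dep c.2 < (k' + 1) * D.s n' → ¬ D.conn (D.R.res c.2 (k' * D.s n')) c.2

open Classical in
/-- The depth at which the path to `x` leaves the piece of `c`. -/
def CD.ex (D : CD H) (c : ℕ × H) (x : H) : ℝ :=
  sSup {t | D.R.dep c.2 ≤ t ∧ t ≤ D.R.dep x ∧ D.R.res x t ∈ D.Pc c.1 c.2}

open Classical in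
/-- The projection of `x` on the piece of `c`. -/
def CD.pr (D : CD H) (c : ℕ × H) (x : H) : H :=
  if D.R.le c.2 x then D.R.res x (D.ex c x) else c.2

end Pool.Agent.Helper62.NT
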