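import Pool.Agent.Helper62.NT.Goals

set_option autoImplicit false

noncomputable section

namespace Pool.Agent.Helper62.NT.Fin

open Pool.Agent.Helper62.NT Pool.Agent.Helper84.TR Pool.Agent.Helper85.TS

instance instH2 : NormedSpace ℝ (lp (fun _ : ℤ => H1) 2) := lp.instNormedSpace

theorem rfx_HN1 : Rfx (HN 1) :=
  rfx_prod (rfx_lp two_conj (by norm_num) fun _ => rfx_pi rfx_ET) (rfx_fin ℝ)

theorem rfx_H1 : Rfx H1 := rfx_lp two_conj (by norm_num) fun _ => rfx_prod rfx_HN1 (rfx_fin ℝ)

theorem rfx_HH : Rfx HH :=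
  rfx_prod (rfx_lp two_conj (by norm_num) fun _ => rfx_H1) (rfx_fin ℝ)

theorem sep_H1 : TopologicalSpace.SeparableSpace H1 := by
  have h1 := sep_HN 1
  exact sep_lp (by norm_num)

theorem sep_HH : TopologicalSpace.SeparableSpace HH := by
  have h1 := sep_H1
  have h2 : TopologicalSpace.SeparableSpace (lp (fun _ : ℤ => H1) 2) := sep_lp (by norm_num)
  infer_instance

/-- The main theorem. -/
theorem main (hJ : S_JAM) (hN : S_NEJ) (hE : S_EMBU) :
    ∃ (X : Type) (_ : NormedAddCommGroup X) (_ : NormedSpace ℝ X),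
      CompleteSpace X ∧ TopologicalSpace.SeparableSpace X ∧
      ¬ Function.Surjective (NormedSpace.inclusionInDoubleDual ℝ X) ∧
      ∀ C D : ℝ, ∃ K : ℝ, ∀ (M : Type) [MetricSpace M],
        (∃ (T : Type) (_ : MetricSpace T) (g : M → T) (q : ℝ), TL T ∧ 0 < q ∧ ∀ x y : M,
          q * dist x y ≤ dist (g x) (g y) ∧ dist (g x) (g y) ≤ D * q * dist x y) →
        (∃ (f : M → X) (r : ℝ), 0 < r ∧ ∀ x y : M, r * dist x y ≤ dist (f x) (f y) ∧
          dist (f x) (f y) ≤ C * r * dist x y) →
        ∃ (h : M → HH) (t : ℝ), 0 < t ∧ ∀ x y : M, t * dist x y ≤ dist (h x) (h y) ∧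
          dist (h x) (h y) ≤ K * t * dist x y := by
  obtain ⟨X, iX, jX, hc, hs, hr, j, hj, hV⟩ := hJ
  refine ⟨X, iX, jX, hc, hs, hr, fun C D => ?_⟩
  obtain ⟨N, hN⟩ := hN X j hj hV (|C| * |D|)
  obtain ⟨c, C', hc0, hC0, hE⟩ := hE N
  refine ⟨|D| * (C' / c), fun M _ hT hX => ?_⟩
  obtain ⟨T, _, g, q, hTL, hq, hg⟩ := hT
  obtain ⟨f, r, hr0, hf⟩ := hX
  -- the image of `M` in `T`
  let Y : Type := Set.range g
  have gi : Function.Injective g := by
    intro x y h
    have h1 := (hg x y).1
    rw [h, dist_self] at h1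
    have h2 : dist x y ≤ 0 := by
      by_contra h3
      push Not at h3
      nlinarith [mul_pos hq h3]
    exact dist_le_zero.1 h2
  choose p hp using fun y : Y => y.2
  have hY : TL Y := fun x y z w => hTL x.1 y.1 z.1 w.1
  -- `Y` embeds in `X`
  have hd : ∀ x y : Y, q * dist (p x) (p y) ≤ dist x y ∧ dist x y ≤ |D| * q * dist (p x) (p y) := by
    intro x y
    have h1 := hg (p x) (p y)
    rw [hp x, hp y] at h1
    refine ⟨h1.1, h1.2.trans ?_⟩
    gcongr
    exact le_abs_self D
  rcases subsingleton_or_nontrivial M with hM | hM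
  · refine ⟨fun _ => 0, 1, one_pos, fun x y => ?_⟩
    rw [Subsingleton.elim x y]
    simp
  have hD1 : 1 ≤ |D| := by
    obtain ⟨x, y, hxy⟩ := hM
    have h1 := hg x y
    have h2 : 0 < dist x y := dist_pos.2 hxy
    have h3 : q * dist x y ≤ D * q * dist x y := h1.1.trans h1.2
    have h4 : 1 * (q * dist x y) ≤ D * (q * dist x y) := by linarith
    have h5 := le_of_mul_le_mul_right h4 (by positivity)
    exact h5.trans (le_abs_self D)
  have hCT : ∀ s : ℝ, 0 < s → ¬ CT Y N s := by
    refine hN Y (fun y => f (p y)) (r / (|D| * q)) (by positivity) (fun x y => ?_) (fun x y => ?_)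
    · refine le_trans ?_ (hf (p x) (p y)).1
      have h1 := (hd x y).2
      have h2 : r / (|D| * q) * dist x y ≤ r / (|D| * q) * (|D| * q * dist (p x) (p y)) := by
        gcongr
      refine h2.trans (le_of_eq ?_)
      field_simp
    · refine (hf (p x) (p y)).2.trans ?_
      have h1 := (hd x y).1
      have h2 : C * r * dist (p x) (p y) ≤ |C| * r * dist (p x) (p y) := by
        gcongr
        exact le_abs_self C
      refine h2.trans ?_
      have h3 : |C| * |D| * (r / (|D| * q)) * dist x y = |C| * r / q * dist x y := by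
        field_simp
      rw [h3]
      have h4 : |C| * r * dist (p x) (p y) = |C| * r / q * (q * dist (p x) (p y)) := by
        field_simp
      rw [h4]
      gcongr
  -- separability
  have hMs : TopologicalSpace.SeparableSpace Y := by
    have hemb : Topology.IsInducing (fun y : Y => f (p y)) := by
      have h1 : AntilipschitzWith (Real.toNNReal (|D| * q / r)) (fun y : Y => f (p y)) := by
        refine AntilipschitzWith.of_le_mul_dist fun x y => ?_
        rw [Real.coe_toNNReal _ (by positivity)]
        have h2 := (hf (p x) (p y)).1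
        have h3 := (hd x y).2
        refine h3.trans ?_
        have h4 : |D| * q * dist (p x) (p y) = |D| * q / r * (r * dist (p x) (p y)) := by
          field_simp
        rw [h4]
        gcongr
      have h5 : LipschitzWith (Real.toNNReal (|C| * r / q)) (fun y : Y => f (p y)) := by
        refine LipschitzWith.of_dist_le_mul fun x y => ?_
        rw [Real.coe_toNNReal _ (by positivity)]
        have h2 := (hf (p x) (p y)).2
        have h3 := (hd x y).1
        refine h2.trans ?_
        have h6 : C * r * dist (p x) (p y) ≤ |C| * r * dist (p x) (p y) := by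
          gcongr
          exact le_abs_self C
        refine h6.trans ?_
        have h4 : |C| * r * dist (p x) (p y) = |C| * r / q * (q * dist (p x) (p y)) := by
          field_simp
        rw [h4]
        gcongr
      exact h1.isInducing h5.uniformContinuous.continuous
    have : SecondCountableTopology X := UniformSpace.secondCountable_of_separable X
    have := hemb.secondCountableTopology
    infer_instance
  obtain ⟨h, hh⟩ := hE Y hY hCT
  refine ⟨fun x => h ⟨g x, x, rfl⟩, c * q, by positivity, fun x y => ?_⟩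
  have h1 := hh ⟨g x, x, rfl⟩ ⟨g y, y, rfl⟩
  have h2 : dist (⟨g x, x, rfl⟩ : Y) ⟨g y, y, rfl⟩ = dist (g x) (g y) := rfl
  rw [h2] at h1
  refine ⟨le_trans ?_ h1.1, h1.2.trans ?_⟩
  · rw [mul_assoc]
    gcongr
    exact (hg x y).1
  · have h3 : dist (g x) (g y) ≤ |D| * q * dist x y := by
      refine (hg x y).2.trans ?_
      gcongr
      exact le_abs_self D
    have h4 : |D| * (C' / c) * (c * q) * dist x y = C' * (|D| * q * dist x y) := by
      field_simp
    rw [h4]
    gcongr

end Pool.Agent.Helper62.NT.Fin
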