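import Pool.Agent.Helper62.NT.Goals

/-! PROJECT NT: the scales, unfolding of `CP`. -/

set_option autoImplicit false

noncomputable section

namespace Pool.Agent.Helper62.NT

variable {H : Type} [MetricSpace H]

theorem s_pos (D : CD H) (n : ℕ) : 0 < D.s n := by
  have h1 := D.hΔ
  have h2 : (0 : ℝ) < D.B := by exact_mod_cast (lt_of_lt_of_le (by norm_num) D.hB)
  unfold CD.s
  positivity

theorem B_pos (D : CD H) : (0 : ℝ) < D.B := by
  exact_mod_cast (lt_of_lt_of_le (by norm_num) D.hB)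

theorem s_mul (D : CD H) {i n : ℕ} (h : i ≤ n) : D.s i = (D.B : ℝ) ^ (n - i) * D.s n := by
  have h2 := (B_pos D).ne'
  unfold CD.s
  rw [← mul_div_assoc, div_eq_div_iff (pow_ne_zero _ h2) (pow_ne_zero _ h2)]
  have h3 : (D.B : ℝ) ^ n = (D.B : ℝ) ^ (n - i) * (D.B : ℝ) ^ i := by
    rw [← pow_add, Nat.sub_add_cancel h]
  rw [h3]
  ring

theorem s_pred (D : CD H) {n : ℕ} (h : 1 ≤ n) : D.s (n - 1) = D.B * D.s n := by
  have h1 := s_mul D (show n - 1 ≤ n by omega)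
  have h2 : n - (n - 1) = 1 := by omega
  rw [h2, pow_one] at h1
  exact h1

theorem s_anti (D : CD H) {i n : ℕ} (h : i ≤ n) : D.s n ≤ D.s i := by
  rw [s_mul D h]
  have h1 : (1 : ℝ) ≤ (D.B : ℝ) ^ (n - i) := by
    apply one_le_pow₀
    exact_mod_cast (le_trans (by norm_num) D.hB)
  nlinarith [s_pos D n]

/-- a coarse multiple below a point of a fine slab is below the slab -/
theorem mult_le (D : CD H) {i n k m : ℕ} {z : ℝ} (h : i ≤ n) (h1 : k * D.s i ≤ z)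
    (h2 : z < (m + 1) * D.s n) : k * D.s i ≤ m * D.s n := by
  have hs := s_pos D n
  rw [s_mul D h] at h1 ⊢
  have h3 : (k : ℝ) * (D.B : ℝ) ^ (n - i) * D.s n < (m + 1) * D.s n := by
    have := lt_of_le_of_lt h1 h2
    rw [← mul_assoc] at this
    exact this
  have h4 := lt_of_mul_lt_mul_right h3 hs.le
  have h5 : k * D.B ^ (n - i) < m + 1 := by exact_mod_cast h4
  have h6 : ((k * D.B ^ (n - i) : ℕ) : ℝ) ≤ m := by exact_mod_cast Nat.lt_succ_iff.1 h5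
  rw [← mul_assoc]
  push_cast at h6
  exact mul_le_mul_of_nonneg_right h6 hs.le

/-- the same for the upper ends -/
theorem mult_ge (D : CD H) {i n k m : ℕ} {z : ℝ} (h : i ≤ n) (h1 : z < (k + 1) * D.s i)
    (h2 : m * D.s n ≤ z) : (m + 1) * D.s n ≤ (k + 1) * D.s i := by
  have hs := s_pos D n
  rw [s_mul D h] at h1 ⊢
  have h3 : (m : ℝ) * D.s n < (k + 1) * (D.B : ℝ) ^ (n - i) * D.s n := by
    have := lt_of_le_of_lt h2 h1
    rw [← mul_assoc] at this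
    exact this
  have h4 := lt_of_mul_lt_mul_right h3 hs.le
  have h5 : m < (k + 1) * D.B ^ (n - i) := by exact_mod_cast h4
  have h6 : ((m : ℝ) + 1) ≤ (k + 1) * (D.B : ℝ) ^ (n - i) := by exact_mod_cast h5
  rw [← mul_assoc]
  exact mul_le_mul_of_nonneg_right h6 hs.le

/-- half-open on the other side: `k s_i < t ≤ (m + 1) s_n` implies `k s_i ≤ m s_n` -/
theorem mult_le' (D : CD H) {i n k m : ℕ} {t : ℝ} (h : i ≤ n) (h1 : k * D.s i < t)
    (h2 : t ≤ (m + 1) * D.s n) : k * D.s i ≤ m * D.s n :=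
  mult_le D h (le_refl _) (lt_of_lt_of_le h1 h2)

/-- `m s_n < t ≤ (k + 1) s_i` implies `(m + 1) s_n ≤ (k + 1) s_i` -/
theorem mult_ge' (D : CD H) {i n k m : ℕ} {t : ℝ} (h : i ≤ n) (h1 : t ≤ (k + 1) * D.s i)
    (h2 : m * D.s n < t) : (m + 1) * D.s n ≤ (k + 1) * D.s i :=
  mult_ge D h (lt_of_lt_of_le h2 h1) (le_refl _)

/-- two multiples of the same scale around a point agree -/
theorem mult_eq (D : CD H) {n k m : ℕ} {z : ℝ} (h1 : k * D.s n ≤ z) (h2 : z < (k + 1) * D.s n)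
    (h3 : m * D.s n ≤ z) (h4 : z < (m + 1) * D.s n) : k = m := by
  have hs := s_pos D n
  have h5 : k < m + 1 := by
    have := lt_of_mul_lt_mul_right (lt_of_le_of_lt h1 h4) hs.le
    exact_mod_cast this
  have h6 : m < k + 1 := by
    have := lt_of_mul_lt_mul_right (lt_of_le_of_lt h3 h2) hs.le
    exact_mod_cast this
  omega

theorem mult_eq' (D : CD H) {n k m : ℕ} {t : ℝ} (h1 : k * D.s n < t) (h2 : t ≤ (k + 1) * D.s n)
    (h3 : m * D.s n < t) (h4 : t ≤ (m + 1) * D.s n) : k = m := by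
  have hs := s_pos D n
  have h5 : k < m + 1 := by
    have := lt_of_mul_lt_mul_right (lt_of_lt_of_le h1 h4) hs.le
    exact_mod_cast this
  have h6 : m < k + 1 := by
    have := lt_of_mul_lt_mul_right (lt_of_lt_of_le h3 h2) hs.le
    exact_mod_cast this
  omega

theorem Prot_mono (D : CD H) {n m : ℕ} (h : n ≤ m) {p : H} (hp : D.Prot n p) : D.Prot m p := by
  obtain ⟨i, k, h1, h2, h3⟩ := hp
  exact ⟨i, k, h1, h2.trans h, h3⟩

/-- unfolding of `CP` -/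
theorem CP_iff (D : CD H) (n : ℕ) (x : H) (z : ℝ) : D.CP n x z ↔
    ∃ k : ℕ, 1 ≤ n ∧ 1 ≤ k ∧ k * D.s n ≤ z ∧ z < (k + 1) * D.s n ∧
    (∀ t, k * D.s n < t → t ≤ z → D.Prot n (D.R.res x t)) ∧
    (∃ z', z < z' ∧ z' ≤ D.R.dep x ∧ z' ≤ (k + 1) * D.s n ∧
      (∃ y, D.R.le (D.R.res x z') y ∧ (k + 2) * D.s n ≤ D.R.dep y) ∧
      ∀ t, z < t → t ≤ z' → ¬ D.Prot n (D.R.res x t)) ∧
    ∀ n', n' < n → ∀ z'', k * D.s n ≤ z'' → z'' < z → ¬ D.CP n' x z'' := by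
  rw [CD.CP]

theorem one : S_ONE := by
  intro H _ D x n k n₁ n₂ z₁ z₂ hn hn₁ hn₂ hz₁ hz hz₂ h1 h2
  obtain ⟨k₁, a1, a2, a3, a4, a5, ⟨z₁', b1, b2, b3, b4, b5⟩, a6⟩ := (CP_iff D n₁ x z₁).1 h1
  obtain ⟨k₂, c1, c2, c3, c4, c5, -, c6⟩ := (CP_iff D n₂ x z₂).1 h2
  have e1 : k₁ * D.s n₁ ≤ k * D.s n := mult_le D hn₁ a3 (hz.trans hz₂)
  have e2 : k₂ * D.s n₂ ≤ k * D.s n := mult_le D hn₂ c3 hz₂
  rcases lt_or_ge n₁ n₂ with h | h
  · exact c6 n₁ h z₁ (e2.trans hz₁) hz h1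
  · -- `n₂ ≤ n₁`
    have f1 : z₁ < min z₁' z₂ := lt_min b1 hz
    have g1 := c5 (min z₁' z₂) (lt_of_le_of_lt (e2.trans hz₁) f1) (min_le_right _ _)
    exact b5 _ f1 (min_le_left _ _) (Prot_mono D h g1)

end Pool.Agent.Helper62.NT
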